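import Mathlib
import Pool.Agent.X197.WarpF

namespace Pool.Agent.Results.MP_1ad12f_an.AffineWarping

open Pool.Agent.X197.Warp

/-- A continuous bijection of Euclidean space is bandlimit-preserving iff it is affine. -/
theorem result (d : ℕ) (γ : EuclideanSpace ℝ (Fin d) → EuclideanSpace ℝ (Fin d))
    (hγ : Continuous γ) (hbij : Function.Bijective γ) :
    (∀ f : EuclideanSpace ℝ (Fin d) → ℂ, Bandlimited f → HasCompactSpectrum (f ∘ γ)) ↔
    ∃ (A : EuclideanSpace ℝ (Fin d) ≃L[ℝ] EuclideanSpace ℝ (Fin d))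
      (b : EuclideanSpace ℝ (Fin d)), ∀ x, γ x = A x + b :=
  warp_iff hγ hbij

end Pool.Agent.Results.MP_1ad12f_an.AffineWarping
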